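import Pool.Agent.CubF620.Zones

/-!
# Face numbers of cubical polytopes and parallel classes of edges

Two edges of a cubical polytope are parallel if they are joined by a chain of edges in which
consecutive ones are opposite edges of a 2-face. If every vertex lies on at most `μ` edges of each
parallel class, then `2^i f_i` is at most the coefficient of `X^i` in
`∑_{k < f_0} (2 (1 + X)^μ - 1)^{s(k)}`, where `s(k)` is the number of ones of `k` in binary. For
`f_0 ≤ 2^m` this gives `f_i ≤ 2^{m-i} C(μ m, i)`.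
-/

set_option autoImplicit false

open Pool.Agent.CubF620

namespace Pool.Agent.Results.MP_f620bf_co.ParallelClassBound

theorem result (d : ℕ) (hd : 3 ≤ d) (P : Set (Eu d)) (hP : IsPolytope P) (hC : Cubical P)
    (μ : ℕ) (hμ : MultAtMost P μ) (i : ℕ) (hi : i < d) :
    ((2 ^ i * fNum P i : ℕ) : ℤ) ≤ (∑ k ∈ Finset.range (fNum P 0),
      (2 * (1 + Polynomial.X) ^ μ - 1) ^ (Nat.digits 2 k).sum : Polynomial ℤ).coeff i ∧
    ∀ m : ℕ, fNum P 0 ≤ 2 ^ m → 2 ^ i * fNum P i ≤ 2 ^ m * (μ * m).choose i :=
  ⟨zone_bound_coeff hd hP hC hμ hi, fun _ hm => zone_bound_pow hd hP hC hμ hi hm⟩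

end Pool.Agent.Results.MP_f620bf_co.ParallelClassBound
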