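import Pool.Agent.CubF620.Main

/-!
# A quadratic bound for the face numbers of cubical polytopes

Every cubical `d`-polytope with `n` vertices satisfies `∑_{i < d} 2^i f_i ≤ n^2`.
-/

set_option autoImplicit false

open Pool.Agent.CubF620

namespace Pool.Agent.Results.MP_f620bf_co.QuadraticBound

theorem result (d : ℕ) (P : Set (Eu d)) (hP : IsPolytope P) (hC : Cubical P) :
    ∑ i ∈ Finset.range d, 2 ^ i * fNum P i ≤ fNum P 0 ^ 2 :=
  quadratic hP hC

end Pool.Agent.Results.MP_f620bf_co.QuadraticBound
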